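import Pool.Agent.Q138.PS.WZ
import Pool.Agent.Q138.AI.R4c2ad3

/-!
# The numbers `g ^ (b' X)` near given points, all bases `g` at once

(1) Let `x_j` (`j ∈ ℕ`) be `r`-tuples of positive real numbers no nontrivial monomial in which is algebraic, `u_j` `s`-tuples of
positive real numbers, `v_j ≠ 0` complex numbers, and `G_j` the group generated by the coordinates of `x_j` and `u_j`. Let `Y` be a
metric space, `p_j` ANY map from `ℤ ^ r` to `Y` and `τ > 0`. Off a set of points of `Y` of Hausdorff dimension at most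
`(r (r + s) / (r + s + 1)) / τ`, for all but finitely many `m ∈ ℤ ^ r` with `dist (p_j(m), z) ≤ b |m| ^ (-τ)`, ALL the numbers
`g ^ (b' v_j x_j ^ m)` with `g ≠ 1` in `G_j` and algebraic `b' ≠ 0` are transcendental.

(2) Off a set of points of dimension at most `(r + s - r / (r + s + 1)) / τ`, for all but finitely many `(m, c) ∈ ℤ ^ r × ℤ ^ s` near
the point, ALL the numbers `g ^ (b' X)`, `X = x_j ^ m u_j ^ c`, with `g ≠ 1` in `G_j` and algebraic `b' ≠ 0` are transcendental.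
-/

set_option autoImplicit false

namespace Pool.Agent.Results.MP_4c2ad3_nt.AllBasesNearPoints

open Pool.Agent.Q138.PS Pool.Agent.Q138.AI.R4c2ad3

/-- the largest absolute value of a coordinate, or `1` -/
noncomputable def size {r : ℕ} (m : Fin r → ℤ) : ℝ := max 1 ((Finset.univ.sup fun i => (m i).natAbs : ℕ) : ℝ)

/-- positive tuples; no nontrivial monomial in the `x_i` is algebraic -/
def Free {r s : ℕ} (x : Fin r → ℝ) (u : Fin s → ℝ) : Prop :=
  (∀ i, 0 < x i) ∧ (∀ j, 0 < u j) ∧ ∀ m : Fin r → ℤ, IsAlgebraic ℚ (∏ i, x i ^ m i) → m = 0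

/-- **Theorem.** -/
theorem result :
    (∀ (r s : ℕ) (x : ℕ → Fin r → ℝ) (u : ℕ → Fin s → ℝ) (v : ℕ → ℂ), (∀ j, Free (x j) (u j)) → (∀ j, v j ≠ 0) →
      ∀ (Y : Type) [MetricSpace Y] [MeasurableSpace Y] [BorelSpace Y] (p : ℕ → (Fin r → ℤ) → Y) (τ : ℝ), 0 < τ →
      ∃ Z : Set Y, dimH Z ≤ ENNReal.ofReal ((r * (r + s) / (r + s + 1) : ℝ) / τ) ∧ ∀ z, z ∉ Z → ∀ (j : ℕ) (b : ℝ),
        {m | dist (p j m) z ≤ b * (size m) ^ (-τ) ∧
          Exceptional (x j) (u j) (v j * ((∏ i, x j i ^ m i : ℝ) : ℂ))}.Finite) ∧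
    (∀ (r s : ℕ) (x : ℕ → Fin r → ℝ) (u : ℕ → Fin s → ℝ), (∀ j, Free (x j) (u j)) →
      ∀ (Y : Type) [MetricSpace Y] [MeasurableSpace Y] [BorelSpace Y] (p : ℕ → (Fin r → ℤ) × (Fin s → ℤ) → Y)
      (τ : ℝ), 0 < τ →
      ∃ Z : Set Y, dimH Z ≤ ENNReal.ofReal ((r + s - r / (r + s + 1) : ℝ) / τ) ∧ ∀ z, z ∉ Z → ∀ (j : ℕ) (b : ℝ),
        {q | dist (p j q) z ≤ b * (max (size q.1) (size q.2)) ^ (-τ) ∧
          Exceptional (x j) (u j) ((elt (x j) (u j) q.1 q.2 : ℝ) : ℂ)}.Finite) := by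
  refine ⟨fun r s x u v hx hv Y _ _ _ p τ hτ => ?_, fun r s x u hx Y _ _ _ p τ hτ => ?_⟩
  · obtain ⟨C, hC⟩ := Pool.Agent.Q138.AI.R4c2ad3.result.1 r s
    obtain ⟨Z, hZ, hz⟩ := fin_pow_seq (J := ℕ) (A := fun _ => Fin r → ℤ) p
      (fun j => {m | Exceptional (x j) (u j) (v j * ((∏ i, x j i ^ m i : ℝ) : ℂ))})
      (fun _ => isize) (fun _ => r + s + 1) (fun _ => r * (r + s)) (fun _ => by omega) (fun _ => τ) (fun _ => hτ)
      (fun j => ⟨C, fun H hH => ⟨fin_box _ H, by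
        have e : {m | isize m ≤ H ∧ m ∈ {m : Fin r → ℤ | Exceptional (x j) (u j) (v j * ((∏ i, x j i ^ m i : ℝ) : ℂ))}} =
            {m : Fin r → ℤ | (∀ i, |m i| ≤ H) ∧ Exceptional (x j) (u j) (v j * ((∏ i, x j i ^ m i : ℝ) : ℂ))} := by
          ext m
          exact and_congr (isize_le m H) Iff.rfl
        rw [e]
        exact hC (x j) (u j) (hx j).1 (hx j).2.1 (hx j).2.2 (v j) (hv j) H hH⟩⟩) _ (fun j => le_rfl)
    refine ⟨Z, hZ.trans (ENNReal.ofReal_le_ofReal (le_of_eq ?_)), fun z hzZ j b => (hz z hzZ j b).subset ?_⟩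
    · push_cast
      rfl
    · rintro m ⟨h1, h2⟩
      exact ⟨h2, h1⟩
  · obtain ⟨C, hC⟩ := Pool.Agent.Q138.AI.R4c2ad3.result.2.1 r s
    obtain ⟨Z, hZ, hz⟩ := fin_pow_seq (J := ℕ) (A := fun _ => (Fin r → ℤ) × (Fin s → ℤ)) p
      (fun j => {q | Exceptional (x j) (u j) ((elt (x j) (u j) q.1 q.2 : ℝ) : ℂ)})
      (fun _ => isize2) (fun _ => r + s + 1) (fun _ => (r + s) * (r + s) + s) (fun _ => by omega) (fun _ => τ) (fun _ => hτ)
      (fun j => ⟨C, fun H hH => ⟨fin_box2 _ H, by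
        have e : {m | isize2 m ≤ H ∧ m ∈ {q : (Fin r → ℤ) × (Fin s → ℤ) |
            Exceptional (x j) (u j) ((elt (x j) (u j) q.1 q.2 : ℝ) : ℂ)}} =
            {p : (Fin r → ℤ) × (Fin s → ℤ) | (∀ i, |p.1 i| ≤ H) ∧ (∀ j, |p.2 j| ≤ H) ∧
              Exceptional (x j) (u j) ((elt (x j) (u j) p.1 p.2 : ℝ) : ℂ)} := by
          ext m
          exact (and_congr (isize2_le m H) Iff.rfl).trans and_assoc
        rw [e]
        exact hC (x j) (u j) (hx j).1 (hx j).2.1 (hx j).2.2 H hH⟩⟩) _ (fun j => le_rfl)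
    refine ⟨Z, hZ.trans (ENNReal.ofReal_le_ofReal (le_of_eq ?_)), fun z hzZ j b => (hz z hzZ j b).subset ?_⟩
    · have h0 : (0 : ℝ) < (r : ℝ) + s + 1 := by positivity
      push_cast
      field_simp
      ring
    · rintro q ⟨h1, h2⟩
      refine ⟨h2, ?_⟩
      have e : max 1 (isize2 q : ℝ) = max (size q.1) (size q.2) := by
        unfold isize2 size isize
        push_cast
        rw [max_max_max_comm, max_self]
      rw [e]
      exact h1

end Pool.Agent.Results.MP_4c2ad3_nt.AllBasesNearPoints
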