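import Pool.Agent.Q138.PS.XV
import Pool.Agent.Q138.AI.R4c2ad3

/-!
# The numbers `g ^ (b x ^ m)` for the integers `m` near the powers of real numbers, all bases `g` at once

Let `x_i` (`i` in a countable set) be positive transcendental numbers, `u_i` `s`-tuples of positive real numbers, `v_i ≠ 0` complex
numbers, `G_i` the group generated by `x_i` and the coordinates of `u_i`, and `l < 1`. There is a set `E` of real numbers of
Hausdorff dimension at most `((s + 1) / (s + 2)) / (1 - l)` such that for every real number `α > 1` outside `E`, all `i`, all real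
algebraic `c > 0`, all integers `j`, all real `D` and all large `n`, for EVERY integer `m ≥ 1` with
`|m - c n ^ j α ^ n| ≤ D (c n ^ j α ^ n) ^ l` ALL the numbers `g ^ (b v_i x_i ^ m)` with `g ≠ 1` in `G_i` and algebraic `b ≠ 0` are
transcendental. For instance `π ^ (π ^ m)` for all these `m` (`s = 0`, dimension `1 / (2 (1 - l))`).
-/

set_option autoImplicit false

namespace Pool.Agent.Results.MP_4c2ad3_nt.AllBasesNearPowers

open Filter Topology
open Pool.Agent.Q138.PS Pool.Agent.Q138.AI.R4c2ad3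

/-- `g` is in the group generated by `x` and the coordinates of `u` -/
def InGroup {s : ℕ} (x : ℝ) (u : Fin s → ℝ) (g : ℝ) : Prop := ∃ (a : ℤ) (c : Fin s → ℤ), g = x ^ a * ∏ i, u i ^ c i

theorem few {s : ℕ} (x : ℝ) (hx : 0 < x) (hxt : Transcendental ℚ x) (u : Fin s → ℝ) (hu : ∀ i, 0 < u i) (v : ℂ) (hv : v ≠ 0) :
    ∃ C : ℝ, ∀ Y : ℕ, 1 ≤ Y →
      cn (fun m => Exceptional (fun _ : Fin 1 => x) u (v * ((x ^ m : ℝ) : ℂ))) Y ≤ C * (Y : ℝ) ^ (((s : ℝ) + 1) / (s + 2)) := by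
  obtain ⟨C, hC⟩ := Pool.Agent.Q138.AI.R4c2ad3.result.1 1 s
  have h0 := cn_root (X := fun m : ℕ => Exceptional (fun _ : Fin 1 => x) u (v * ((x ^ m : ℝ) : ℂ))) (C := C) (p := 1 * (1 + s))
    (q := 1 + s + 1) (by omega) (fun Y hY => by
    have h1 := hC (fun _ : Fin 1 => x) u (fun _ => hx) hu (fun m hm => by
      rw [Fin.prod_univ_one] at hm
      funext i
      rw [Subsingleton.elim i 0]
      by_contra hne
      change m 0 ≠ 0 at hne
      apply hxt
      rcases lt_or_gt_of_ne hne with h | h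
      · have h2 : x ^ (-(m 0)) = (x ^ (m 0))⁻¹ := zpow_neg x (m 0)
        have h3 : IsAlgebraic ℚ (x ^ (-(m 0))) := by rw [h2]; exact hm.inv
        obtain ⟨k, hk⟩ := Int.eq_ofNat_of_zero_le (show 0 ≤ -(m 0) by omega)
        rw [hk] at h3
        have hk0 : 0 < k := by omega
        rw [zpow_natCast] at h3
        exact h3.of_pow hk0
      · obtain ⟨k, hk⟩ := Int.eq_ofNat_of_zero_le (show 0 ≤ m 0 by omega)
        rw [hk] at hm
        have hk0 : 0 < k := by omega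
        rw [zpow_natCast] at hm
        exact hm.of_pow hk0) v hv Y hY
    have hfin := Pool.Agent.Q138.AI.R4c2ad3.finite_box 1 Y (fun m : Fin 1 → ℤ => Exceptional (fun _ : Fin 1 => x) u
      (v * ((∏ i, (fun _ : Fin 1 => x) i ^ m i : ℝ) : ℂ)))
    refine le_trans (Nat.pow_le_pow_left ?_ _) h1
    refine Set.ncard_le_ncard_of_injOn (fun m : ℕ => fun _ : Fin 1 => (m : ℤ)) ?_ ?_ hfin
    · rintro m ⟨h3, h4, h5⟩
      refine ⟨fun _ => ?_, ?_⟩
      · rw [abs_of_nonneg (Int.natCast_nonneg m)]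
        exact_mod_cast h4
      · simpa using h5
    · intro a _ b _ hab
      exact Int.natCast_inj.1 (congrFun hab 0))
  refine ⟨(C : ℝ) ^ (1 / ((1 + s + 1 : ℕ) : ℝ)), fun Y hY => (h0 Y hY).trans (le_of_eq ?_)⟩
  push_cast
  congr 2
  congr 1 <;> ring

/-- **Theorem.** -/
theorem result {ι : Type} [Countable ι] (s : ℕ) (x : ι → ℝ) (u : ι → Fin s → ℝ) (v : ι → ℂ) (hx : ∀ i, 0 < x i)
    (hxt : ∀ i, Transcendental ℚ (x i)) (hu : ∀ i k, 0 < u i k) (hv : ∀ i, v i ≠ 0) (l : ℝ) (hl : l < 1) :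
    ∃ E : Set ℝ, dimH E ≤ ENNReal.ofReal (((s : ℝ) + 1) / (s + 2) / (1 - l)) ∧ ∀ α : ℝ, 1 < α → α ∉ E → ∀ (i : ι) (c : ℝ), 0 < c →
      IsAlgebraic ℚ c → ∀ (j : ℤ) (D : ℝ), ∀ᶠ n : ℕ in atTop, ∀ m : ℕ, 1 ≤ m → NearPow α c j D l n m →
        ∀ (g : ℝ) (b : ℂ), InGroup (x i) (u i) g → g ≠ 1 → IsAlgebraic ℚ b → b ≠ 0 →
          Transcendental ℚ ((g : ℂ) ^ (b * (v i * ((x i ^ m : ℝ) : ℂ)))) := by
  obtain ⟨E, hE, hg⟩ := pow_cn (ι := ι) (fun i m => Exceptional (fun _ : Fin 1 => x i) (u i) (v i * ((x i ^ m : ℝ) : ℂ)))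
    (((s : ℝ) + 1) / (s + 2)) l (by positivity) hl (fun i => few (x i) (hx i) (hxt i) (u i) (hu i) (v i) (hv i))
  refine ⟨E, hE, fun α hα hαE i c hc hca j D => ?_⟩
  filter_upwards [hg α hα hαE i c hc hca j D] with n hn m hm hnear g b hgr hg1 hb hb0 halg
  refine hn m hm hnear ?_
  obtain ⟨a, c', rfl⟩ := hgr
  refine ⟨fun _ => a, c', b, hb, hb0, ?_, ?_⟩
  · unfold elt
    rw [Fin.prod_univ_one]
    exact hg1
  · unfold elt
    rw [Fin.prod_univ_one]
    exact halg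

end Pool.Agent.Results.MP_4c2ad3_nt.AllBasesNearPowers
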