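import Pool.Agent.Q147.TG.Tower

/-!
# The numbers `X ^ X` and `z ^ (b X)` for the elements `X`, `z` of a group of real numbers

`π ^ π` is the value of `X ^ X` at one element of the group of the powers of `π`.  We consider
arbitrary finitely generated groups of positive real numbers
`Γ = ⟨x_1, ..., x_r, u_1, ..., u_s⟩`, such that no nontrivial monomial in `x_1, ..., x_r` is algebraic;
the `u_j` are arbitrary.  For `r = 1` the only condition is that `x_1` is transcendental.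

(1) For every complex number `v ≠ 0` and all but `C H ^ (r (r + s) / (r + s + 1))` of the exponents
`m` with `|m_i| ≤ H`, the numbers `z ^ (b v x ^ m)` are transcendental for *all* `z ≠ 1` in `Γ` and all
algebraic `b ≠ 0`.  Here `C` depends only on `r` and `s`.

(2) Hence for all but `C H ^ (r + s - r / (r + s + 1))` of the about `(2 H) ^ (r + s)` elements
`X = x ^ m u ^ c` of `Γ` with exponents of absolute value at most `H`, all the numbers `z ^ (b X)`,
`z ≠ 1` in `Γ`, `b ≠ 0` algebraic, are transcendental; in particular `X ^ X` (if `X ≠ 1`), and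
`x_i ^ X`, `X ^ (b X)`.

(3) The case `x_1 = π`: for arbitrary positive `u_1, ..., u_s` and all but
`C H ^ (s + 1 - 1 / (s + 2))` of the `X = π ^ m u ^ c ≠ 1`, the number `X ^ X` is transcendental.

The proof.  `z ^ (b v x ^ m) = exp (v x ^ m y)`, where `y = b log z` is in the space `Y` spanned over the
algebraic numbers by the `log x_i` and `log u_j`, of dimension `N ≤ r + s`.  The number of `m` for which
`v x ^ m Y` contains a nonzero linear form in `1` and logarithms of algebraic numbers is estimated by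
the theorem of Waldschmidt and Roy on hyperplanes and by the fact that a multiplicative group of rank
`r` modulo the algebraic numbers meets a space of dimension `D` in at most `binom (D + r - 1) r`
classes (`Pool.Agent.Q147.TG`).
-/

set_option autoImplicit false

namespace Pool.Agent.Results.MP_4c2ad3_nt.SelfPowersInGroups

open Module
open Pool.Agent.Q147.TG
open Pool.Agent.Y787 (QC mem_QC)
open Pool.Agent.H301R2.SSE (Lt Lt_log Lt_alg Lt_mul)

/-- the monomial `x ^ m u ^ c` -/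
noncomputable def elt {r s : ℕ} (x : Fin r → ℝ) (u : Fin s → ℝ) (m : Fin r → ℤ) (c : Fin s → ℤ) : ℝ :=
  (∏ i, x i ^ m i) * ∏ j, u j ^ c j

/-- `z ^ (b X)` is algebraic for some `z ≠ 1` in the group generated by the `x_i` and `u_j` and some
algebraic `b ≠ 0`; here `z ^ w = exp (w log z)` -/
def Exceptional {r s : ℕ} (x : Fin r → ℝ) (u : Fin s → ℝ) (X : ℂ) : Prop :=
  ∃ (a : Fin r → ℤ) (c : Fin s → ℤ) (b : ℂ), IsAlgebraic ℚ b ∧ b ≠ 0 ∧ elt x u a c ≠ 1 ∧
    IsAlgebraic ℚ (((elt x u a c : ℝ) : ℂ) ^ (b * X))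

theorem finite_box (r H : ℕ) (P : (Fin r → ℤ) → Prop) :
    {m : Fin r → ℤ | (∀ i, |m i| ≤ H) ∧ P m}.Finite :=
  (box r H).finite_toSet.subset fun _ hm => Finset.mem_coe.2 (mem_box.2 hm.1)

theorem elt_pos {r s : ℕ} {x : Fin r → ℝ} {u : Fin s → ℝ} (hx : ∀ i, 0 < x i) (hu : ∀ j, 0 < u j)
    (m : Fin r → ℤ) (c : Fin s → ℤ) : 0 < elt x u m c :=
  mul_pos (Finset.prod_pos fun i _ => zpow_pos (hx i) _)
    (Finset.prod_pos fun j _ => zpow_pos (hu j) _)

theorem log_elt {r s : ℕ} {x : Fin r → ℝ} {u : Fin s → ℝ} (hx : ∀ i, 0 < x i) (hu : ∀ j, 0 < u j)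
    (m : Fin r → ℤ) (c : Fin s → ℤ) :
    Real.log (elt x u m c) = ∑ i, m i * Real.log (x i) + ∑ j, c j * Real.log (u j) := by
  rw [elt, Real.log_mul (Finset.prod_ne_zero_iff.2 fun i _ => (zpow_pos (hx i) _).ne')
    (Finset.prod_ne_zero_iff.2 fun j _ => (zpow_pos (hu j) _).ne'),
    Real.log_prod fun i _ => (zpow_pos (hx i) _).ne',
    Real.log_prod fun j _ => (zpow_pos (hu j) _).ne']
  simp only [Real.log_zpow]

/-- the count in a coset -/
theorem coset {r s : ℕ} {x : Fin r → ℝ} {u : Fin s → ℝ} (hx : ∀ i, 0 < x i) (hu : ∀ j, 0 < u j)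
    (hfree : ∀ m : Fin r → ℤ, IsAlgebraic ℚ (∏ i, x i ^ m i) → m = 0) {v : ℂ} (hv : v ≠ 0)
    {H : ℕ} (hH : 1 ≤ H) :
    {m : Fin r → ℤ | (∀ i, |m i| ≤ H) ∧
      Exceptional x u (v * ((∏ i, x i ^ m i : ℝ) : ℂ))}.ncard ^ (r + s + 1) ≤
        cst (r + s) r * H ^ (r * (r + s)) := by
  classical
  let g : Fin r → ℂˣ := fun i => Units.mk0 ((x i : ℝ) : ℂ) (by exact_mod_cast (hx i).ne')
  have hval : ∀ m : Fin r → ℤ, ((mon g m : ℂˣ) : ℂ) = ((∏ i, x i ^ m i : ℝ) : ℂ) := by
    intro m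
    rw [mon, Units.coe_prod, Complex.ofReal_prod]
    exact Finset.prod_congr rfl fun i _ => by
      rw [Units.val_zpow_eq_zpow_val, Complex.ofReal_zpow]
      rfl
  have hg : Free (QC ℂ) g := fun m hm => hfree m (by
    rw [cst_iff, hval] at hm
    exact (isAlgebraic_algebraMap_iff (A := ℂ) (algebraMap ℝ ℂ).injective).1 hm)
  let y : Fin r ⊕ Fin s → ℂ :=
    Sum.elim (fun i => v * (Real.log (x i) : ℝ)) (fun j => v * (Real.log (u j) : ℝ))
  let Y : Submodule (QC ℂ) ℂ := Submodule.span (QC ℂ) (Set.range y)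
  have hfin : FiniteDimensional (QC ℂ) Y := FiniteDimensional.span_of_finite _ (Set.finite_range _)
  have hY : finrank (QC ℂ) Y ≤ r + s := (finrank_range_le_card _).trans (by
    rw [Fintype.card_sum, Fintype.card_fin, Fintype.card_fin])
  rw [Set.ncard_eq_toFinset_card _ (finite_box r H _)]
  refine card_exc_box (Lt := (Lt : Submodule (QC ℂ) ℂ)) hg Y hY hH _ ?_ ?_
  · intro m hm
    exact ((finite_box r H _).mem_toFinset.1 hm).1
  · intro m hm
    obtain ⟨a, c, b, hb, hb0, h1, halg⟩ := ((finite_box r H _).mem_toFinset.1 hm).2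
    have hpos := elt_pos hx hu a c
    have hlog : Real.log (elt x u a c) ≠ 0 := by
      intro h
      rcases Real.log_eq_zero.1 h with h | h | h
      · exact hpos.ne' h
      · exact h1 h
      · rw [h] at hpos
        norm_num at hpos
    have hmem : v * ((Real.log (elt x u a c) : ℝ) : ℂ) ∈ Y := by
      have e : v * ((Real.log (elt x u a c) : ℝ) : ℂ) =
          ∑ i, ((a i : ℤ) : QC ℂ) • y (Sum.inl i) + ∑ j, ((c j : ℤ) : QC ℂ) • y (Sum.inr j) := by
        rw [log_elt hx hu]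
        push_cast
        rw [mul_add, Finset.mul_sum, Finset.mul_sum]
        congr 1
        · refine Finset.sum_congr rfl fun i _ => ?_
          change _ = ((a i : ℤ) : QC ℂ) • (v * ((Real.log (x i) : ℝ) : ℂ))
          rw [Algebra.smul_def, map_intCast]
          ring
        · refine Finset.sum_congr rfl fun j _ => ?_
          change _ = ((c j : ℤ) : QC ℂ) • (v * ((Real.log (u j) : ℝ) : ℂ))
          rw [Algebra.smul_def, map_intCast]
          ring
      rw [e]
      exact Y.add_mem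
        (Submodule.sum_mem _ fun i _ => Y.smul_mem _ (Submodule.subset_span ⟨_, rfl⟩))
        (Submodule.sum_mem _ fun j _ => Y.smul_mem _ (Submodule.subset_span ⟨_, rfl⟩))
    have hbY : b * (v * ((Real.log (elt x u a c) : ℝ) : ℂ)) ∈ Y := by
      have e : b * (v * ((Real.log (elt x u a c) : ℝ) : ℂ)) =
          (⟨b, mem_QC.2 hb⟩ : QC ℂ) • (v * ((Real.log (elt x u a c) : ℝ) : ℂ)) := by
        rw [Algebra.smul_def]
        rfl
      rw [e]
      exact Y.smul_mem _ hmem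
    refine ⟨_, hbY, mul_ne_zero hb0 (mul_ne_zero hv (by exact_mod_cast hlog)), ?_⟩
    rw [hval]
    apply Lt_log
    have hz : ((elt x u a c : ℝ) : ℂ) ≠ 0 := by exact_mod_cast hpos.ne'
    rw [Complex.cpow_def_of_ne_zero hz, ← Complex.ofReal_log hpos.le] at halg
    have e : ((∏ i, x i ^ m i : ℝ) : ℂ) * (b * (v * ((Real.log (elt x u a c) : ℝ) : ℂ))) =
        ((Real.log (elt x u a c) : ℝ) : ℂ) * (b * (v * ((∏ i, x i ^ m i : ℝ) : ℂ))) := by ring
    rw [e]
    exact halg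

/-- the constant -/
noncomputable def cst2 (r s : ℕ) : ℕ := 3 ^ (s * (r + s + 1)) * cst (r + s) r

/-- the count in the group -/
theorem whole {r s : ℕ} {x : Fin r → ℝ} {u : Fin s → ℝ} (hx : ∀ i, 0 < x i) (hu : ∀ j, 0 < u j)
    (hfree : ∀ m : Fin r → ℤ, IsAlgebraic ℚ (∏ i, x i ^ m i) → m = 0) {H : ℕ} (hH : 1 ≤ H)
    (P : (Fin r → ℤ) → (Fin s → ℤ) → Prop)
    (hP : ∀ m c, P m c → Exceptional x u ((elt x u m c : ℝ) : ℂ)) :
    {p : (Fin r → ℤ) × (Fin s → ℤ) | (∀ i, |p.1 i| ≤ H) ∧ (∀ j, |p.2 j| ≤ H) ∧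
      P p.1 p.2}.ncard ^ (r + s + 1) ≤ cst2 r s * H ^ ((r + s) * (r + s) + s) := by
  classical
  let T : Finset ((Fin r → ℤ) × (Fin s → ℤ)) := ((box r H) ×ˢ (box s H)).filter fun p => P p.1 p.2
  have hT : {p : (Fin r → ℤ) × (Fin s → ℤ) | (∀ i, |p.1 i| ≤ H) ∧ (∀ j, |p.2 j| ≤ H) ∧
      P p.1 p.2} = (T : Set _) := by
    ext p
    rw [Set.mem_ofPred_eq, Finset.mem_coe, Finset.mem_filter, Finset.mem_product, mem_box, mem_box,
      and_assoc]
  rw [hT, Set.ncard_coe_finset]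
  have hfib : ∀ c ∈ box s H, (T.filter fun p => p.2 = c).card ^ (r + s + 1) ≤
      cst (r + s) r * H ^ (r * (r + s)) := by
    intro c _
    have hv : ((∏ j, u j ^ c j : ℝ) : ℂ) ≠ 0 := by
      exact_mod_cast (Finset.prod_pos fun j _ => zpow_pos (hu j) (c j)).ne'
    refine le_trans (Nat.pow_le_pow_left ?_ _) (coset hx hu hfree hv hH)
    rw [Set.ncard_eq_toFinset_card _ (finite_box r H _)]
    refine Finset.card_le_card_of_injOn (fun p => p.1) ?_ ?_
    · intro p hp
      rw [Finset.mem_coe, Finset.mem_filter, Finset.mem_filter, Finset.mem_product, mem_box] at hp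
      rw [Finset.mem_coe, Set.Finite.mem_toFinset]
      obtain ⟨⟨⟨h1, -⟩, h2⟩, h3⟩ := hp
      refine ⟨h1, ?_⟩
      have := hP _ _ h2
      rw [h3] at this
      have e : ((∏ j, u j ^ c j : ℝ) : ℂ) * ((∏ i, x i ^ p.1 i : ℝ) : ℂ) =
          ((elt x u p.1 c : ℝ) : ℂ) := by
        rw [elt]
        push_cast
        ring
      rw [e]
      exact this
    · intro p hp q hq h
      rw [Finset.mem_coe, Finset.mem_filter] at hp hq
      exact Prod.ext h (hp.2.trans hq.2.symm)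
  have hne : (box s H).Nonempty := ⟨0, mem_box.2 fun i => by simp⟩
  obtain ⟨c₀, hc₀, hmax⟩ := (box s H).exists_max_image
    (fun c => (T.filter fun p => p.2 = c).card) hne
  have hsum : T.card ≤ (box s H).card * (T.filter fun p => p.2 = c₀).card := by
    rw [Finset.card_eq_sum_card_fiberwise (f := fun p => p.2) (t := box s H) (fun p hp => by
      rw [Finset.mem_coe, Finset.mem_filter, Finset.mem_product] at hp
      exact hp.1.2)]
    refine (Finset.sum_le_card_nsmul _ _ _ hmax).trans ?_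
    rw [smul_eq_mul]
  calc T.card ^ (r + s + 1)
      ≤ ((box s H).card * (T.filter fun p => p.2 = c₀).card) ^ (r + s + 1) :=
        Nat.pow_le_pow_left hsum _
    _ = ((box s H).card) ^ (r + s + 1) * (T.filter fun p => p.2 = c₀).card ^ (r + s + 1) :=
        mul_pow _ _ _
    _ ≤ ((3 * H) ^ s) ^ (r + s + 1) * (cst (r + s) r * H ^ (r * (r + s))) := by
        refine Nat.mul_le_mul (Nat.pow_le_pow_left ?_ _) (hfib c₀ hc₀)
        rw [card_box]
        exact Nat.pow_le_pow_left (by omega) _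
    _ = cst2 r s * H ^ ((r + s) * (r + s) + s) := by
        rw [cst2, ← pow_mul, mul_pow]
        have : (r + s) * (r + s) + s = s * (r + s + 1) + r * (r + s) := by ring
        rw [this, pow_add]
        ring

theorem trans_pi_zpow {m : Fin 1 → ℤ} (h : IsAlgebraic ℚ (∏ i, (fun _ : Fin 1 => Real.pi) i ^ m i)) :
    m = 0 := by
  rw [Fin.prod_univ_one] at h
  funext i
  rw [Fin.fin_one_eq_zero i]
  by_contra h0
  have h0 : m 0 ≠ 0 := h0
  apply Pool.Agent.H340R2.LW.transcendental_pi_complex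
  have h1 : IsAlgebraic ℚ (Real.pi ^ (m 0).natAbs) := by
    rcases Int.natAbs_eq (m 0) with h2 | h2
    · rw [h2, zpow_natCast] at h
      exact h
    · rw [h2, zpow_neg, zpow_natCast] at h
      simpa using h.inv
  have h2 : IsAlgebraic ℚ Real.pi := h1.of_pow (Int.natAbs_pos.2 h0)
  exact h2.algebraMap (A := ℂ)

/-- **Main result.** -/
theorem result :
    -- (1) cosets of the group generated by the `x_i`
    (∀ r s : ℕ, ∃ C : ℕ, ∀ (x : Fin r → ℝ) (u : Fin s → ℝ), (∀ i, 0 < x i) → (∀ j, 0 < u j) →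
      (∀ m : Fin r → ℤ, IsAlgebraic ℚ (∏ i, x i ^ m i) → m = 0) →
      ∀ v : ℂ, v ≠ 0 → ∀ H : ℕ, 1 ≤ H →
      {m : Fin r → ℤ | (∀ i, |m i| ≤ H) ∧
        Exceptional x u (v * ((∏ i, x i ^ m i : ℝ) : ℂ))}.ncard ^ (r + s + 1) ≤
          C * H ^ (r * (r + s))) ∧
    -- (2) the whole group
    (∀ r s : ℕ, ∃ C : ℕ, ∀ (x : Fin r → ℝ) (u : Fin s → ℝ), (∀ i, 0 < x i) → (∀ j, 0 < u j) →
      (∀ m : Fin r → ℤ, IsAlgebraic ℚ (∏ i, x i ^ m i) → m = 0) → ∀ H : ℕ, 1 ≤ H →
      {p : (Fin r → ℤ) × (Fin s → ℤ) | (∀ i, |p.1 i| ≤ H) ∧ (∀ j, |p.2 j| ≤ H) ∧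
        Exceptional x u ((elt x u p.1 p.2 : ℝ) : ℂ)}.ncard ^ (r + s + 1) ≤
          C * H ^ ((r + s) * (r + s) + s)) ∧
    -- (3) self-powers in groups which contain `π`
    (∀ s : ℕ, ∃ C : ℕ, ∀ u : Fin s → ℝ, (∀ j, 0 < u j) → ∀ H : ℕ, 1 ≤ H →
      {p : ℤ × (Fin s → ℤ) | |p.1| ≤ H ∧ (∀ j, |p.2 j| ≤ H) ∧
        Real.pi ^ p.1 * ∏ j, u j ^ p.2 j ≠ 1 ∧
        IsAlgebraic ℚ ((Real.pi ^ p.1 * ∏ j, u j ^ p.2 j) ^
          (Real.pi ^ p.1 * ∏ j, u j ^ p.2 j) : ℝ)}.ncard ^ (s + 2) ≤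
        C * H ^ ((s + 1) * (s + 1) + s)) := by
  refine ⟨fun r s => ⟨cst (r + s) r, ?_⟩, fun r s => ⟨cst2 r s, ?_⟩, fun s => ⟨cst2 1 s, ?_⟩⟩
  · intro x u hx hu hfree v hv H hH
    exact coset hx hu hfree hv hH
  · intro x u hx hu hfree H hH
    exact whole hx hu hfree hH _ fun m c h => h
  · intro u hu H hH
    have key := whole (x := fun _ : Fin 1 => Real.pi) (u := u) (fun _ => Real.pi_pos) hu
      (fun m hm => trans_pi_zpow hm) hH
      (fun m c => elt (fun _ : Fin 1 => Real.pi) u m c ≠ 1 ∧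
        IsAlgebraic ℚ (elt (fun _ : Fin 1 => Real.pi) u m c ^ elt (fun _ : Fin 1 => Real.pi) u m c))
      (by
        rintro m c ⟨h1, h2⟩
        refine ⟨m, c, 1, isAlgebraic_one, one_ne_zero, h1, ?_⟩
        have h3 := h2.algebraMap (A := ℂ)
        have hpos := elt_pos (x := fun _ : Fin 1 => Real.pi) (fun _ => Real.pi_pos) hu m c
        rw [one_mul, ← Complex.ofReal_cpow hpos.le]
        exact h3)
    have e1 : 1 + s + 1 = s + 2 := by ring
    have e2 : (1 + s) * (1 + s) + s = (s + 1) * (s + 1) + s := by ring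
    rw [e1, e2] at key
    refine le_trans (Nat.pow_le_pow_left ?_ _) key
    refine Set.ncard_le_ncard_of_injOn (fun p : ℤ × (Fin s → ℤ) => ((fun _ : Fin 1 => p.1), p.2))
      ?_ ?_ ?_
    · rintro ⟨m, c⟩ ⟨h1, h2, h3, h4⟩
      have e : elt (fun _ : Fin 1 => Real.pi) u (fun _ => m) c = Real.pi ^ m * ∏ j, u j ^ c j := by
        rw [elt, Fin.prod_univ_one]
      refine ⟨fun _ => h1, h2, ?_, ?_⟩
      · rw [e]; exact h3
      · rw [e]; exact h4
    · rintro ⟨m, c⟩ - ⟨m', c'⟩ - h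
      have h := Prod.ext_iff.1 h
      exact Prod.ext (congrFun h.1 0) h.2
    · exact ((box 1 H) ×ˢ (box s H)).finite_toSet.subset fun p hp => by
        rw [Finset.mem_coe, Finset.mem_product, mem_box, mem_box]
        exact ⟨hp.1, hp.2.1⟩

end Pool.Agent.Results.MP_4c2ad3_nt.SelfPowersInGroups
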