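import Pool.Agent.Q138.PS.WZ
import Pool.Agent.Q138.AI.R4c2ad3

/-!
# Self-powers `X ^ X`, `X = π ^ m u_1 ^ c_1 ⋯ u_s ^ c_s`, near given points

(1) Let `u_j` (`j ∈ ℕ`) be `s`-tuples of positive real numbers, `Y` a metric space, `p_j` ANY map from `ℤ × ℤ ^ s` to `Y` and
`τ > 0`. There is a set `Z ⊆ Y` of Hausdorff dimension at most `(s + 1 - 1 / (s + 2)) / τ` such that for every `z ∈ Y` outside `Z`,
all `j` and `b`, for all but finitely many `(m, c)` with `dist (p_j(m, c), z) ≤ b |(m, c)| ^ (-τ)` the number `X ^ X`,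
`X = π ^ m ∏ u_{j, i} ^ c_i`, is transcendental or `X = 1`.

(2) Directions. Let `s ≥ 1`. By Dirichlet's theorem, for every `z ∈ ℝ ^ s` there are infinitely many `(m, c)`, `m ≥ 1`, with
`|c_i / m - z_i| ≤ m ^ (-1 - 1 / s)` for all `i`. There is a set `Z` of points of Hausdorff dimension at most
`s - s / ((s + 1) (s + 2))`, less than `s`, such that for every `z` outside `Z` and all `j`, `X ^ X` is transcendental (or `X = 1`)
for all but finitely many of these `(m, c)`. (The `X` are then close to the powers of `π ∏ u_{j, i} ^ z_i`.)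
-/

set_option autoImplicit false

namespace Pool.Agent.Results.MP_4c2ad3_nt.SelfPowersNearPoints

open Pool.Agent.Q138.PS Pool.Agent.Q138.AI.R4c2ad3

/-- the largest absolute value of a coordinate, or `1` -/
noncomputable def size {r : ℕ} (m : Fin r → ℤ) : ℝ := max 1 ((Finset.univ.sup fun i => (m i).natAbs : ℕ) : ℝ)

/-- `X ≠ 1` and `X ^ X` is algebraic, for `X = π ^ m ∏ u_i ^ c_i`. -/
def SelfPower {s : ℕ} (u : Fin s → ℝ) (q : ℤ × (Fin s → ℤ)) : Prop :=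
  Real.pi ^ q.1 * ∏ j, u j ^ q.2 j ≠ 1 ∧
    IsAlgebraic ℚ ((Real.pi ^ q.1 * ∏ j, u j ^ q.2 j) ^ (Real.pi ^ q.1 * ∏ j, u j ^ q.2 j) : ℝ)

/-- `m ≥ 1` and `|c_i / m - z_i| ≤ m ^ (-1 - 1 / s)` -/
def Close {s : ℕ} (z : Fin s → ℝ) (q : ℤ × (Fin s → ℤ)) : Prop :=
  1 ≤ q.1 ∧ ∀ i, |(q.2 i : ℝ) / q.1 - z i| ≤ (q.1 : ℝ) ^ (-(1 + 1 / (s : ℝ)))

theorem near {s : ℕ} (u : ℕ → Fin s → ℝ) (hu : ∀ j i, 0 < u j i) (Y : Type) [MetricSpace Y] [MeasurableSpace Y]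
    [BorelSpace Y] (p : ℕ → ℤ × (Fin s → ℤ) → Y) (τ : ℝ) (hτ : 0 < τ) :
    ∃ Z : Set Y, dimH Z ≤ ENNReal.ofReal ((s + 1 - 1 / (s + 2)) / τ) ∧ ∀ z, z ∉ Z → ∀ (j : ℕ) (b : ℝ),
      {q | q ∈ {q | SelfPower (u j) q} ∧ dist (p j q) z ≤ b * (max 1 (isize1 q : ℝ)) ^ (-τ)}.Finite := by
  obtain ⟨C, hC⟩ := result.2.2 s
  refine fin_pow_seq (J := ℕ) (A := fun _ => ℤ × (Fin s → ℤ)) p (fun j => {q | SelfPower (u j) q})
    (fun _ => isize1) (fun _ => s + 2) (fun _ => (s + 1) * (s + 1) + s) (fun _ => by omega) (fun _ => τ) (fun _ => hτ)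
    (fun j => ⟨C, fun H hH => ⟨fin_box1 _ H, ?_⟩⟩) _ (fun j => le_of_eq ?_)
  · have e : {m | isize1 m ≤ H ∧ m ∈ {q | SelfPower (u j) q}} = {p : ℤ × (Fin s → ℤ) | |p.1| ≤ H ∧ (∀ j, |p.2 j| ≤ H) ∧
        Real.pi ^ p.1 * ∏ i, u j i ^ p.2 i ≠ 1 ∧
        IsAlgebraic ℚ ((Real.pi ^ p.1 * ∏ i, u j i ^ p.2 i) ^
          (Real.pi ^ p.1 * ∏ i, u j i ^ p.2 i) : ℝ)} := by
      ext m
      exact (and_congr (isize1_le m H) Iff.rfl).trans and_assoc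
    rw [e]
    exact hC (u j) (hu j) H hH
  · push_cast
    field_simp
    ring

/-- **Theorem.** -/
theorem result :
    (∀ (s : ℕ) (u : ℕ → Fin s → ℝ), (∀ j i, 0 < u j i) →
      ∀ (Y : Type) [MetricSpace Y] [MeasurableSpace Y] [BorelSpace Y] (p : ℕ → ℤ × (Fin s → ℤ) → Y) (τ : ℝ), 0 < τ →
      ∃ Z : Set Y, dimH Z ≤ ENNReal.ofReal ((s + 1 - 1 / (s + 2)) / τ) ∧ ∀ z, z ∉ Z → ∀ (j : ℕ) (b : ℝ),
        {q | dist (p j q) z ≤ b * (max (|q.1| : ℝ) (size q.2)) ^ (-τ) ∧ SelfPower (u j) q}.Finite) ∧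
    (∀ s : ℕ, 1 ≤ s → ∀ u : ℕ → Fin s → ℝ, (∀ j i, 0 < u j i) →
      ∃ Z : Set (Fin s → ℝ), dimH Z ≤ ENNReal.ofReal (s - s / ((s + 1) * (s + 2))) ∧ ∀ z, z ∉ Z →
        {q | Close z q}.Infinite ∧ ∀ j, {q | Close z q ∧ SelfPower (u j) q}.Finite) := by
  refine ⟨fun s u hu Y _ _ _ p τ hτ => ?_, fun s hs u hu => ?_⟩
  · obtain ⟨Z, hZ, hz⟩ := near u hu Y p τ hτ
    refine ⟨Z, hZ, fun z hzZ j b => (hz z hzZ j b).subset ?_⟩
    rintro q ⟨h1, h2⟩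
    refine ⟨h2, ?_⟩
    have e : max 1 (isize1 q : ℝ) = max (|q.1| : ℝ) (size q.2) := by
      unfold isize1 size isize
      push_cast
      rw [Nat.cast_natAbs, Int.cast_abs, max_left_comm]
    rw [e]
    exact h1
  · have hs0 : (0 : ℝ) < s := by exact_mod_cast hs
    obtain ⟨Z, hZ, hz⟩ := near u hu (Fin s → ℝ) (fun _ => iratios) (1 + 1 / (s : ℝ)) (by positivity)
    refine ⟨Z, hZ.trans (ENNReal.ofReal_le_ofReal (le_of_eq ?_)), fun z hzZ => ⟨dirichlet_int hs z, fun j => ?_⟩⟩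
    · field_simp
    · obtain ⟨b, hb⟩ := iratios_near z
      refine (hz z hzZ j b).subset ?_
      rintro q ⟨⟨h1, h2⟩, h3⟩
      exact ⟨h3, hb q h1 h2⟩

end Pool.Agent.Results.MP_4c2ad3_nt.SelfPowersNearPoints
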